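import Pool.Agent.VJ26.Final

/-!
# MP_ad3a45_pr: L2-boundedness of the VRJP martingale under transience (full answer: yes)

Let `d ≥ 1`, `W > 0` be such that the vertex reinforced jump process on `Z^d` with constant
conductances `W`, started at `0`, is transient. Then
`sup_V sup_{i ∈ V} E[ψ_V(i)^2] < ∞`, the supremum over all finite `V ⊂ Z^d`; in particular for
every exhausting sequence `V_n` and every `i` the martingale `ψ^{(n)}(i)` is bounded in `L^2`.
-/

open MeasureTheory VJ26

theorem Pool.Agent.Results.MP_ad3a45_pr.TransientL2.result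
    (d : ℕ) (hd : 1 ≤ d) (W : ℝ) (hW : 0 < W)
    -- the VRJP (jump chain `X`, holding times `T`), assumed transient
    {Ω' : Type*} [MeasurableSpace Ω'] (P' : Measure Ω')
    (X : ℕ → Ω' → Zd d) (T : ℕ → Ω' → ℝ)
    (hX : IsVRJP W P' X T) (htr : IsTransient P' X)
    -- the random potential
    {Ω : Type*} [MeasurableSpace Ω] (P : Measure Ω) (β : Zd d → Ω → ℝ)
    (hβ : IsPotential W P β) :
    ∃ C : ℝ, ∀ (V : Finset (Zd d)) (i : Zd d), i ∈ V →
      Integrable (fun ω => psiV W V (fun j => β j ω) i ^ 2) P ∧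
        ∫ ω, psiV W V (fun j => β j ω) i ^ 2 ∂P ≤ C :=
  vrjp_L2 hd hW hX htr hβ
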